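import Pool.Agent.FS.OrdinalShare.Dyadic

/-! The selection of bundles and the deadline condition in an ordered instance. -/

namespace Pool.Agent.FS.OrdinalShare

open Finset

lemma weight (L : ℕ) (η : ℝ) (hη : 0 < η) :
    ∑ z ∈ range (L + 1) ×ˢ range (2 ^ L),
      (∑ u ∈ range (2 ^ z.1), (if z.2 * 2 ^ z.1 + u < 2 ^ L then (1 : ℝ) else 0)) /
        (η * (((z.2 + 1) * 2 ^ z.1 : ℕ) : ℝ) / (L + 1 : ℕ)) ≤ ((L : ℝ) + 1) ^ 3 / η := by
  rw [sum_product]
  have hK : (0 : ℝ) < (L + 1 : ℕ) := by positivity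
  let h : ℕ → ℝ := fun p => if p < 2 ^ L then (L + 1 : ℕ) / η * (1 / (p + 1)) else 0
  have h1 : ∀ l ∈ range (L + 1), ∑ q ∈ range (2 ^ L),
      (∑ u ∈ range (2 ^ l), (if q * 2 ^ l + u < 2 ^ L then (1 : ℝ) else 0)) /
        (η * (((q + 1) * 2 ^ l : ℕ) : ℝ) / (L + 1 : ℕ)) ≤ (L + 1 : ℕ) / η * (L + 1) := by
    intro l _
    have h2 : ∑ p ∈ range (2 ^ L * 2 ^ l), h p = ∑ p ∈ range (2 ^ L), h p := by
      refine (sum_subset (range_mono (Nat.le_mul_of_pos_right _ (by positivity))) ?_).symm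
      intro p _ hp
      simp only [h, if_neg (fun hh => hp (mem_range.2 hh))]
    have h3 : ∑ p ∈ range (2 ^ L), h p ≤ (L + 1 : ℕ) / η * (L + 1) := by
      have h3' : ∑ p ∈ range (2 ^ L), h p =
          ∑ p ∈ range (2 ^ L), ((L + 1 : ℕ) : ℝ) / η * (1 / ((p : ℝ) + 1)) :=
        sum_congr rfl fun p hp => by simp only [h, mem_range.1 hp, if_true]
      rw [h3', ← mul_sum]
      exact mul_le_mul_of_nonneg_left (harm L) (by positivity)
    refine le_trans ?_ (h2.le.trans h3)
    rw [blocks]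
    refine sum_le_sum fun q _ => ?_
    rw [sum_div]
    refine sum_le_sum fun u hu => ?_
    simp only [h]
    split_ifs
    · have h4 : ((q * 2 ^ l + u : ℕ) : ℝ) + 1 ≤ (((q + 1) * 2 ^ l : ℕ) : ℝ) := by
        have := mem_range.1 hu
        have : q * 2 ^ l + u + 1 ≤ (q + 1) * 2 ^ l := by rw [add_mul]; omega
        exact_mod_cast this
      have h5 : (0 : ℝ) < ((q * 2 ^ l + u : ℕ) : ℝ) + 1 := by positivity
      calc (1 : ℝ) / (η * (((q + 1) * 2 ^ l : ℕ) : ℝ) / (L + 1 : ℕ))
          = (L + 1 : ℕ) / η * (1 / (((q + 1) * 2 ^ l : ℕ) : ℝ)) := by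
            have := (h5.trans_le h4).ne'
            field_simp
        _ ≤ _ := mul_le_mul_of_nonneg_left (one_div_le_one_div_of_le h5 h4) (by positivity)
    · simp
  refine (sum_le_sum h1).trans (le_of_eq ?_)
  rw [sum_const, card_range, nsmul_eq_mul]
  push_cast
  field_simp

lemma core {n d : ℕ} (L m : ℕ) (w : Fin n → ℕ → ℝ)
    (hw : ∀ i, Antitone (w i)) (hw0 : ∀ i p, 0 ≤ w i p) (bun : Fin n → ℕ → Fin d)
    (g η : ℝ) (hη : 0 < η) (hg0 : 0 < g) (hg : g + 2 * ((((L : ℝ) + 1) ^ 3 + 1) / η) ≤ d)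
    (hnum : n / g + η + n / 2 ^ L ≤ 1) :
    ∃ (c : Fin n → Fin d) (T : Fin n → Finset ℕ), (∀ t, ∑ i, ((T i).filter (· < t)).card ≤ t) ∧
      ∀ i, ∑ p ∈ (range (2 ^ L + m)).filter (bun i · = c i), w i p ≤ ∑ p ∈ T i, w i p := by
  classical
  let e : Fin n → Fin d → ℕ → ℝ := fun i b p => if bun i p = b then 1 else 0
  have he0 : ∀ i b p, 0 ≤ e i b p := fun i b p => by simp only [e]; split_ifs <;> norm_num
  have he1 : ∀ i b p, e i b p ≤ 1 := fun i b p => by simp only [e]; split_ifs <;> norm_num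
  have hes : ∀ i p, ∑ b, e i b p = 1 := fun i p => by simp [e]
  let e' : Fin n → Fin d → ℕ → ℝ := fun i b p => if p < 2 ^ L then e i b p else 0
  have he0' : ∀ i b p, 0 ≤ e' i b p := fun i b p => by
    simp only [e']; split_ifs; exacts [he0 _ _ _, le_rfl]
  have hes' : ∀ i p, ∑ b, e' i b p = if p < 2 ^ L then 1 else 0 := fun i p => by
    simp only [e']; split_ifs; exacts [hes i p, sum_const_zero]
  let V : Fin n → ℝ := fun i => ∑ p ∈ range m, w i (2 ^ L + p)
  let D : Fin n → Fin d → ℝ := fun i b => ∑ p ∈ range m, e i b (2 ^ L + p) * w i (2 ^ L + p)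
  have hD0 : ∀ i b, 0 ≤ D i b := fun i b =>
    sum_nonneg fun p _ => mul_nonneg (he0 _ _ _) (hw0 _ _)
  have hDs : ∀ i, ∑ b, D i b = V i := by
    intro i
    rw [sum_comm]
    simp only [← sum_mul, hes, one_mul, V]
  have hV0 : ∀ i, 0 ≤ V i := fun i => sum_nonneg fun p _ => hw0 _ _
  let φ : Fin n → Fin d → ℝ := fun i b => D i b / V i
  have hφ0 : ∀ i b, 0 ≤ φ i b := fun i b => div_nonneg (hD0 i b) (hV0 i)
  have hφV : ∀ i b, φ i b * V i = D i b := by
    intro i b
    rcases (hV0 i).eq_or_lt with h | h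
    · have : D i b ≤ V i := hDs i ▸ single_le_sum (fun b _ => hD0 i b) (mem_univ b)
      rw [← h] at this ⊢
      linarith [hD0 i b]
    · exact div_mul_cancel₀ _ h.ne'
  have hφt : ∀ i, ∑ b, φ i b ≤ 1 := fun i => by
    simp only [φ, ← sum_div, hDs]; exact div_self_le_one _
  have hφ1 : ∀ i b, φ i b ≤ 1 := fun i b =>
    (single_le_sum (fun b _ => hφ0 i b) (mem_univ b)).trans (hφt i)
  let R : Option (ℕ × ℕ) → Fin n → Fin d → ℝ := fun r a o =>
    r.elim (φ a o) fun z => ∑ u ∈ range (2 ^ z.1), e' a o (z.2 * 2 ^ z.1 + u)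
  let ω : Option (ℕ × ℕ) → ℝ := fun r =>
    r.elim η fun z => η * (((z.2 + 1) * 2 ^ z.1 : ℕ) : ℝ) / (L + 1 : ℕ)
  obtain ⟨c, x, hx, hb⟩ := choose_bf (insertNone (range (L + 1) ×ˢ range (2 ^ L))) R ω
    (fun r a o => by
      cases r with
      | none => exact hφ0 a o
      | some z => exact sum_nonneg fun u _ => he0' _ _ _)
    (fun r => by
      cases r with
      | none => exact hη
      | some z => simp only [ω, Option.elim]; positivity)
    ((((L : ℝ) + 1) ^ 3 + 1) / η) g
    (fun a => by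
      rw [sum_comm, sum_insertNone]
      have h1 : ∑ o, R none a o / ω none ≤ 1 / η := by
        simp only [R, ω, Option.elim, ← sum_div]
        exact div_le_div_of_nonneg_right (hφt a) hη.le
      have h2 := weight L η hη
      have h3 : ∀ z : ℕ × ℕ, ∑ o, R (some z) a o / ω (some z) =
          (∑ u ∈ range (2 ^ z.1), (if z.2 * 2 ^ z.1 + u < 2 ^ L then (1 : ℝ) else 0)) /
            (η * (((z.2 + 1) * 2 ^ z.1 : ℕ) : ℝ) / (L + 1 : ℕ)) := by
        intro z
        simp only [R, ω, Option.elim, ← sum_div]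
        rw [sum_comm]
        simp only [hes']
      simp only [h3]
      rw [add_div]
      linarith)
    hg hg0
  have hmean : ∀ (Y : Fin n → Fin d → ℝ) (y : ℝ), (∀ a o, 0 ≤ Y a o) → (∀ a, ∑ o, Y a o ≤ y) →
      ∑ a, ∑ o, x a o * Y a o ≤ n / g * y := by
    intro Y y h0 h1
    have : ∀ a, ∑ o, x a o * Y a o ≤ 1 / g * y := fun a =>
      (sum_le_sum fun o _ => mul_le_mul_of_nonneg_right (hx a o).2 (h0 a o)).trans
        (by rw [← mul_sum]; exact mul_le_mul_of_nonneg_left (h1 a) (by positivity))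
    refine (sum_le_sum fun a _ => this a).trans (le_of_eq ?_)
    rw [sum_const, card_univ, Fintype.card_fin, nsmul_eq_mul]
    ring
  have hnP : (0 : ℝ) ≤ n / 2 ^ L := by positivity
  have hφs : ∑ i, φ i (c i) ≤ 1 := by
    have h1 := hb none (by simp)
    have h2 := hmean φ 1 hφ0 hφt
    simp only [R, ω, Option.elim] at h1
    linarith
  have hH : ∀ t ≤ 2 ^ L, ∑ i, ∑ p ∈ range t, e i (c i) p ≤ (n / g + η) * t := by
    intro t ht
    have h1 := dyadic (fun t => ∑ a, ∑ p ∈ range t, e' a (c a) p -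
      ∑ a, ∑ o, x a o * ∑ p ∈ range t, e' a o p) (by simp) (L + 1) L.succ_pos η hη.le t
      (ht.trans_lt (Nat.pow_lt_pow_right one_lt_two L.lt_succ_self)) (fun l hl q hq => by
        have hq' : q < 2 ^ L :=
          (Nat.le_mul_of_pos_right (q + 1) (by positivity)).trans (hq.trans ht)
        have h2 := hb (some (l, q)) (by simp [hq', Nat.lt_succ_iff.1 hl])
        simp only [R, ω, Option.elim] at h2
        refine le_trans (le_of_eq ?_) h2
        simp only [add_mul, one_mul, sum_range_add, mul_add, sum_add_distrib]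
        ring)
    have h2 := hmean (fun a o => ∑ p ∈ range t, e' a o p) t
      (fun a o => sum_nonneg fun p _ => he0' _ _ _) (fun a => by
        rw [sum_comm]
        refine (sum_le_sum fun p _ => (hes' a p).le.trans
          (show _ ≤ (1 : ℝ) by split_ifs <;> norm_num)).trans ?_
        simp)
    have h3 : ∀ i, ∑ p ∈ range t, e i (c i) p = ∑ p ∈ range t, e' i (c i) p := fun i =>
      sum_congr rfl fun p hp => by simp only [e', (mem_range.1 hp).trans_le ht, if_true]
    simp only [h3]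
    linarith
  let y : Fin n → ℕ → ℝ := fun i p => if p < 2 ^ L then e i (c i) p else φ i (c i)
  have hy0 : ∀ i p, 0 ≤ y i p := fun i p => by
    simp only [y]; split_ifs; exacts [he0 _ _ _, hφ0 _ _]
  have hy1 : ∀ i p, y i p ≤ 1 := fun i p => by
    simp only [y]; split_ifs; exacts [he1 _ _ _, hφ1 _ _]
  have hya : ∀ i, ∀ p ∈ range (2 ^ L), y i p = e i (c i) p := fun i p hp => by
    simp only [y, mem_range.1 hp, if_true]
  have hyb : ∀ i p, y i (2 ^ L + p) = φ i (c i) := fun i p => by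
    simp only [y, show ¬ (2 ^ L + p < 2 ^ L) by omega, if_false]
  choose T hT1 hT2 using fun i => round (y i) (w i) (hy0 i) (hy1 i) (hw i) (hw0 i) (2 ^ L + m)
  refine ⟨c, T, fun t => ?_, fun i => le_trans (le_of_eq ?_) (hT2 i)⟩
  · refine (sum_le_sum fun i _ => hT1 i t).trans ?_
    have goal : (∑ i, (⌈∑ p ∈ range t, y i p⌉₊ : ℝ)) ≤ t := by
      rcases le_total t (2 ^ L) with ht | ht
      · have h1 : ∀ i, (⌈∑ p ∈ range t, y i p⌉₊ : ℝ) = ∑ p ∈ range t, e i (c i) p := by
          intro i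
          rw [sum_congr rfl fun p hp => hya i p (range_mono ht hp)]
          simp only [e, sum_boole, Nat.ceil_natCast]
        simp only [h1]
        nlinarith [hH t ht, Nat.cast_nonneg (α := ℝ) t]
      · obtain ⟨u, rfl⟩ := Nat.exists_eq_add_of_le ht
        have h1 : ∀ i, (⌈∑ p ∈ range (2 ^ L + u), y i p⌉₊ : ℝ) ≤
            ∑ p ∈ range (2 ^ L), e i (c i) p + u * φ i (c i) + 1 := by
          intro i
          refine (Nat.ceil_lt_add_one (sum_nonneg fun p _ => hy0 i p)).le.trans (le_of_eq ?_)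
          rw [sum_range_add, sum_congr rfl (hya i)]
          simp [hyb]
        have h2 := sum_le_sum fun i (_ : i ∈ univ) => h1 i
        rw [sum_add_distrib, sum_add_distrib, ← mul_sum] at h2
        simp only [sum_const, card_univ, Fintype.card_fin, nsmul_eq_mul, mul_one] at h2
        have h3 := mul_le_mul_of_nonneg_left hφs (Nat.cast_nonneg (α := ℝ) u)
        have h4 : (n : ℝ) / 2 ^ L * 2 ^ L = n := by field_simp
        have h5 := hH _ le_rfl
        have h6 := mul_le_mul_of_nonneg_right hnum (show (0 : ℝ) ≤ 2 ^ L by positivity)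
        push_cast at h5 ⊢
        linarith
    exact_mod_cast goal
  · rw [sum_filter, sum_range_add, sum_range_add]
    congr 1
    · refine sum_congr rfl fun p hp => ?_
      rw [hya i p hp]
      simp [e]
    · simp only [hyb, ← mul_sum]
      rw [hφV]
      simp [D, e]

end Pool.Agent.FS.OrdinalShare
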