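import Pool.Agent.FS.OrdinalShare.Tools
import Pool.Agent.Lib.MP_5049a2_lc.BF

/-! Choosing one bundle of each agent's own partition so that all deadlines are met. -/

namespace Pool.Agent.FS.OrdinalShare

open Finset

lemma blocks (f : ℕ → ℝ) (s j : ℕ) :
    ∑ p ∈ range (j * s), f p = ∑ k ∈ range j, ∑ p ∈ range s, f (k * s + p) := by
  induction j with
  | zero => simp
  | succ j ih => rw [Nat.succ_mul, sum_range_add, ih, sum_range_succ]

lemma harm (L : ℕ) : ∑ p ∈ range (2 ^ L), (1 : ℝ) / (p + 1) ≤ L + 1 := by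
  induction L with
  | zero => simp
  | succ L ih =>
    rw [pow_succ, mul_two, sum_range_add]
    have h : ∑ u ∈ range (2 ^ L), (1 : ℝ) / ((2 ^ L + u : ℕ) + 1) ≤
        ∑ _u ∈ range (2 ^ L), (1 : ℝ) / 2 ^ L := by
      refine sum_le_sum fun u _ => one_div_le_one_div_of_le (by positivity) ?_
      push_cast
      linarith [Nat.cast_nonneg (α := ℝ) u]
    rw [sum_const, card_range, nsmul_eq_mul] at h
    have h2 : ((2 ^ L : ℕ) : ℝ) * (1 / 2 ^ L) = 1 := by push_cast; field_simp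
    push_cast at h h2 ⊢
    linarith

lemma dyadic (D : ℕ → ℝ) (h0 : D 0 = 0) (K : ℕ) (hK : 0 < K) (η : ℝ) (hη : 0 ≤ η) (t : ℕ)
    (ht : t < 2 ^ K) (h : ∀ l < K, ∀ q, (q + 1) * 2 ^ l ≤ t →
      D ((q + 1) * 2 ^ l) - D (q * 2 ^ l) ≤ η * (((q + 1) * 2 ^ l : ℕ) : ℝ) / K) :
    D t ≤ η * t := by
  have hK' : (0 : ℝ) < K := by exact_mod_cast hK
  have h1 := sum_range_sub' (fun l => D (t / 2 ^ l * 2 ^ l)) K
  simp only [pow_zero, Nat.div_one, mul_one, Nat.div_eq_of_lt ht, zero_mul, h0, sub_zero] at h1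
  have h2 : ∀ l ∈ range K, D (t / 2 ^ l * 2 ^ l) - D (t / 2 ^ (l + 1) * 2 ^ (l + 1)) ≤
      η * t / K := by
    intro l hl
    have h3 : t / 2 ^ (l + 1) = t / 2 ^ l / 2 := by rw [pow_succ, Nat.div_div_eq_div_mul]
    have h4 := Nat.div_mul_le_self t (2 ^ l)
    rw [h3]
    generalize t / 2 ^ l = q at h4 ⊢
    obtain ⟨a, rfl | rfl⟩ := Nat.even_or_odd' q
    · rw [show 2 * a / 2 * 2 ^ (l + 1) = 2 * a * 2 ^ l by
        rw [Nat.mul_div_cancel_left _ two_pos]; ring, sub_self]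
      positivity
    · rw [show (2 * a + 1) / 2 * 2 ^ (l + 1) = 2 * a * 2 ^ l by
        rw [show (2 * a + 1) / 2 = a by omega]; ring]
      refine (h l (mem_range.1 hl) (2 * a) h4).trans ?_
      have : (((2 * a + 1) * 2 ^ l : ℕ) : ℝ) ≤ t := by exact_mod_cast h4
      gcongr
  have h5 := sum_le_sum h2
  rw [h1, sum_const, card_range, nsmul_eq_mul, mul_div_cancel₀ _ hK'.ne'] at h5
  exact h5

lemma choose_bf {n d : ℕ} {ι : Type} (I : Finset ι) (R : ι → Fin n → Fin d → ℝ) (ω : ι → ℝ)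
    (hR : ∀ i a o, 0 ≤ R i a o) (hω : ∀ i, 0 < ω i) (B g : ℝ)
    (hB : ∀ a, ∑ o, ∑ i ∈ I, R i a o / ω i ≤ B) (hg : g + 2 * B ≤ d) (hg0 : 0 < g) :
    ∃ (c : Fin n → Fin d) (x : Fin n → Fin d → ℝ), (∀ a o, 0 ≤ x a o ∧ x a o ≤ 1 / g) ∧
      ∀ i ∈ I, ∑ a, R i a (c a) - ∑ a, ∑ o, x a o * R i a o ≤ ω i := by
  classical
  let f : Fin n → Fin d → ℝ := fun a o => ∑ i ∈ I, R i a o / ω i
  have hf0 : ∀ a o, 0 ≤ f a o := fun a o =>
    sum_nonneg fun i _ => div_nonneg (hR _ _ _) (hω i).le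
  let G : Fin n → Finset (Fin d) := fun a => univ.filter fun o => f a o ≤ 1 / 2
  have hGc : ∀ a, g ≤ (G a).card := by
    intro a
    have h1 := card_filter_add_card_filter_not (s := (univ : Finset (Fin d)))
      (fun o => f a o ≤ 1 / 2)
    rw [card_univ, Fintype.card_fin] at h1
    have h2 : ((univ.filter fun o => ¬ f a o ≤ 1 / 2).card : ℝ) * (1 / 2) ≤ B := by
      calc ((univ.filter fun o => ¬ f a o ≤ 1 / 2).card : ℝ) * (1 / 2)
          = ∑ _o ∈ univ.filter fun o => ¬ f a o ≤ 1 / 2, (1 / 2 : ℝ) := by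
            rw [sum_const, nsmul_eq_mul]
        _ ≤ ∑ o ∈ univ.filter fun o => ¬ f a o ≤ 1 / 2, f a o :=
            sum_le_sum fun o ho => (not_le.1 (mem_filter.1 ho).2).le
        _ ≤ ∑ o, f a o := sum_le_sum_of_subset_of_nonneg (subset_univ _) fun o _ _ => hf0 a o
        _ ≤ _ := hB a
    have h3 : ((G a).card : ℝ) + (univ.filter fun o => ¬ f a o ≤ 1 / 2).card = d := by
      exact_mod_cast h1
    linarith
  have hGp : ∀ a, (0 : ℝ) < (G a).card := fun a => hg0.trans_le (hGc a)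
  let x : Fin n → Fin d → ℝ := fun a o => if o ∈ G a then 1 / (G a).card else 0
  have hx : ∀ a o, 0 ≤ x a o ∧ x a o ≤ 1 / g := by
    intro a o
    simp only [x]
    split_ifs
    · exact ⟨by positivity, one_div_le_one_div_of_le hg0 (hGc a)⟩
    · exact ⟨le_rfl, by positivity⟩
  obtain ⟨c, hc, hb⟩ := Pool.Agent.Lib.MP_5049a2_lc.bf_general I
    (fun i a o => if o ∈ G a then R i a o else 0) ω
    (fun i _ a o => by split_ifs; exacts [hR _ _ _, le_rfl]) (fun i _ => hω i)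
    (fun a o => by
      by_cases h : o ∈ G a
      · simp only [h, if_true]; exact (mem_filter.1 h).2
      · simp [h])
    _ x (fun a o => (hx a o).1)
    (fun a => by
      simp only [x, sum_ite_mem, univ_inter, sum_const, nsmul_eq_mul]
      exact mul_one_div_cancel (hGp a).ne') le_rfl
  have hcG : ∀ a, c a ∈ G a := by
    intro a
    by_contra h
    have := hc a
    simp [x, h] at this
  refine ⟨c, x, hx, fun i hi => ?_⟩
  have h1 := (abs_le.1 (hb i hi)).2
  simp only [hcG, if_true] at h1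
  have h2 : ∀ a o, x a o * (if o ∈ G a then R i a o else 0) = x a o * R i a o := by
    intro a o
    by_cases h : o ∈ G a <;> simp [x, h]
  simpa only [h2] using h1

end Pool.Agent.FS.OrdinalShare
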