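import Mathlib

/-! Two tools: Hall with deadlines and ceiling rounding. -/

namespace Pool.Agent.FS.OrdinalShare

open Finset

lemma hall {n m : ℕ} (hn : 0 < n) (v : Fin n → Fin m → ℝ) (hv : ∀ i g, 0 ≤ v i g)
    (σ : Fin n → Equiv.Perm (Fin m)) (hσ : ∀ i, Antitone fun p => v i (σ i p))
    (T : Fin n → Finset ℕ) (hT : ∀ t, ∑ i, ((T i).filter (· < t)).card ≤ t) :
    ∃ A : Fin m → Fin n, ∀ i, ∑ p ∈ univ.filter (fun p : Fin m => p.val ∈ T i), v i (σ i p) ≤
      ∑ g ∈ univ.filter (fun g => A g = i), v i g := by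
  classical
  let R := {x : Fin n × Fin m // x.2.val ∈ T x.1}
  let N : R → Finset (Fin m) := fun x => (Iic x.1.2).image (σ x.1.1)
  have hH : ∀ s : Finset R, s.card ≤ (s.biUnion N).card := by
    intro s
    rcases s.eq_empty_or_nonempty with rfl | hs
    · simp
    obtain ⟨x, hx, hmax⟩ := exists_max_image s (fun x => x.1.2) hs
    have h1 : s.card ≤ (univ.sigma fun i => (T i).filter (· < x.1.2.val + 1)).card := by
      refine card_le_card_of_injOn (fun y => ⟨y.1.1, y.1.2.val⟩) ?_ ?_
      · intro y hy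
        have h := hmax y hy
        have h' : y.1.2.val ≤ x.1.2.val := h
        simp only [coe_sigma, Set.mem_sigma_iff, coe_univ, Set.mem_univ, true_and, coe_filter,
          Set.mem_ofPred_eq]
        exact ⟨y.2, by omega⟩
      · intro y _ z _ h
        have h1 : y.1.1 = z.1.1 := congrArg Sigma.fst h
        have h2 : y.1.2.val = z.1.2.val := congrArg (fun q : (Σ _ : Fin n, ℕ) => q.2) h
        exact Subtype.ext (Prod.ext h1 (Fin.ext h2))
    rw [card_sigma] at h1
    have h2 : (N x).card = x.1.2.val + 1 := by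
      rw [card_image_of_injective _ (σ x.1.1).injective, Fin.card_Iic]
    exact h1.trans ((hT _).trans (h2 ▸ card_le_card (subset_biUnion_of_mem N hx)))
  obtain ⟨f, hf, hfN⟩ := (all_card_le_biUnion_card_iff_exists_injective N).1 hH
  let A : Fin m → Fin n := fun g => if h : ∃ x, f x = g then h.choose.1.1 else ⟨0, hn⟩
  have hA : ∀ x, A (f x) = x.1.1 := by
    intro x
    have h : ∃ y, f y = f x := ⟨x, rfl⟩
    have : h.choose = x := hf h.choose_spec
    simp only [A, dif_pos h, this]
  refine ⟨A, fun i => ?_⟩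
  let F : Fin m → Fin m := fun p => if h : p.val ∈ T i then f ⟨(i, p), h⟩ else p
  have hinj : Set.InjOn F (univ.filter (fun p : Fin m => p.val ∈ T i) : Finset (Fin m)) := by
    intro p hp q hq h
    have hp' : p.val ∈ T i := (mem_filter.1 hp).2
    have hq' : q.val ∈ T i := (mem_filter.1 hq).2
    simp only [F, dif_pos hp', dif_pos hq'] at h
    exact congrArg (fun x : R => x.1.2) (hf h)
  calc ∑ p ∈ univ.filter (fun p : Fin m => p.val ∈ T i), v i (σ i p)
      ≤ ∑ p ∈ univ.filter (fun p : Fin m => p.val ∈ T i), v i (F p) := by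
        refine sum_le_sum fun p hp => ?_
        have hp' : p.val ∈ T i := (mem_filter.1 hp).2
        obtain ⟨q, hq, he⟩ := mem_image.1 (hfN ⟨(i, p), hp'⟩)
        simp only [F, dif_pos hp']
        rw [← he]
        exact hσ i (mem_Iic.1 hq)
    _ = ∑ g ∈ (univ.filter (fun p : Fin m => p.val ∈ T i)).image F, v i g :=
        (sum_image hinj).symm
    _ ≤ _ := by
        refine sum_le_sum_of_subset_of_nonneg ?_ fun g _ _ => hv i g
        intro g hg
        obtain ⟨p, hp, rfl⟩ := mem_image.1 hg
        have hp' : p.val ∈ T i := (mem_filter.1 hp).2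
        simp only [F, dif_pos hp', mem_filter, mem_univ, true_and]
        exact hA _

lemma round (x w : ℕ → ℝ) (h0 : ∀ p, 0 ≤ x p) (h1 : ∀ p, x p ≤ 1) (hw : Antitone w)
    (hw0 : ∀ p, 0 ≤ w p) (M : ℕ) :
    ∃ T : Finset ℕ, (∀ t, (T.filter (· < t)).card ≤ ⌈∑ p ∈ range t, x p⌉₊) ∧
      ∑ p ∈ range M, x p * w p ≤ ∑ p ∈ T, w p := by
  classical
  let C : ℕ → ℕ := fun t => ⌈∑ p ∈ range t, x p⌉₊
  have hC : ∀ t, ((range t).filter fun p => C p < C (p + 1)).card = C t := by
    intro t
    induction t with
    | zero => simp [C]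
    | succ t ih =>
      have ha : C t ≤ C (t + 1) := Nat.ceil_mono (by rw [sum_range_succ]; linarith [h0 t])
      have hb : C (t + 1) ≤ C t + 1 := by
        refine Nat.ceil_le.2 ?_
        rw [sum_range_succ]
        push_cast
        linarith [h1 t, Nat.le_ceil (∑ p ∈ range t, x p)]
      rw [range_add_one, filter_insert]
      split_ifs with h
      · rw [card_insert_of_notMem (by simp), ih]; omega
      · rw [ih]; omega
  refine ⟨(range M).filter fun p => C p < C (p + 1), fun t => ?_, ?_⟩
  · refine le_trans (card_le_card ?_) (hC t).le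
    intro p hp
    simp only [mem_filter, mem_range] at hp ⊢
    exact ⟨hp.2, hp.1.2⟩
  · let e : ℕ → ℝ := fun p => (if C p < C (p + 1) then 1 else 0) - x p
    have hG : ∀ t, 0 ≤ ∑ p ∈ range t, e p := by
      intro t
      simp only [e, sum_sub_distrib, sum_boole]
      rw [hC t]
      linarith [Nat.le_ceil (∑ p ∈ range t, x p)]
    have hS : ∀ t, (∑ p ∈ range t, e p) * w t ≤ ∑ p ∈ range t, e p * w p := by
      intro t
      induction t with
      | zero => simp
      | succ t ih =>
        have := mul_le_mul_of_nonneg_left (hw (Nat.le_succ t)) (hG (t + 1))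
        rw [sum_range_succ (fun p => e p * w p)]
        rw [sum_range_succ] at this ⊢
        nlinarith
    have h2 := (mul_nonneg (hG M) (hw0 M)).trans (hS M)
    simp only [e, sub_mul, sum_sub_distrib, ite_mul, one_mul, zero_mul] at h2
    rw [sum_filter]
    linarith

end Pool.Agent.FS.OrdinalShare
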